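import Mathlib
import Pool.Agent.Helper23.IM.Retract

/-! Piece B1 of MP_ad5e4d_al: removing an edge covered once. -/

namespace IM

open FreeGroup

variable {A V : Type*} [MulAction (FreeGroup A) V]

/-- A path avoids the edge `e` if no step traverses it. -/
theorem b1_isPath_diff {E : Set (A × V)} {e : A × V} {v : V} {u : List (A × Bool)}
    (hu : IsPath E v u) (h : ∀ (j : ℕ) (hj : j < u.length), edge (endp v (u.take j)) u[j] ≠ e) :
    IsPath (E \ {e}) v u := by
  induction u generalizing v with
  | nil => trivial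
  | cons x u ih =>
    refine ⟨⟨hu.1, ?_⟩, ih hu.2 ?_⟩
    · have := h 0 (by simp)
      simpa using this
    · intro j hj
      have := h (j + 1) (by simpa using hj)
      simpa using this

/-- The weight of a path along which the weights are the letters. -/
theorem b1_wt_eq_mk {κ : A × V → FreeGroup A} {E : Set (A × V)} (hκ : ∀ e ∈ E, κ e = FreeGroup.of e.1)
    {v : V} {u : List (A × Bool)} (hu : IsPath E v u) : wt κ v u = FreeGroup.mk u := by
  induction u generalizing v with
  | nil => rw [wt_nil, FreeGroup.one_eq_mk]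
  | cons x u ih =>
    rw [wt_cons, ih hu.2, hκ _ hu.1, mk_cons]
    congr 1
    rcases x with ⟨a, b⟩
    cases b
    · simp only [edge, Bool.false_eq_true, if_false]
      rw [FreeGroup.of, FreeGroup.inv_mk]
      rfl
    · rfl

/-- the word `t` repeated `q` times -/
def b1rep (t : List (A × Bool)) : ℕ → List (A × Bool)
  | 0 => []
  | q + 1 => t ++ b1rep t q

theorem b1_mk_rep (t : List (A × Bool)) (q : ℕ) : (FreeGroup.mk (b1rep t q) : FreeGroup A) =
    FreeGroup.mk t ^ q := by
  induction q with
  | zero => rw [b1rep, pow_zero, FreeGroup.one_eq_mk]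
  | succ q ih => rw [b1rep, pow_succ', ← ih, FreeGroup.mul_mk]

theorem b1_endp_pow (v : V) (t : List (A × Bool)) (q : ℕ) :
    (FreeGroup.mk t ^ q)⁻¹ • v = endp v (b1rep t q) := by
  rw [endp, b1_mk_rep]

theorem b1_endp_rep_succ (v : V) (t : List (A × Bool)) (q : ℕ) :
    endp v (b1rep t (q + 1)) = endp (endp v t) (b1rep t q) := endp_append _ _ _

/-- if the first `q` translates of `v` are in `C` and avoid `e`, then so does the whole path -/
theorem b1_isPath_rep {E : Set (A × V)} {v : V} {t : List (A × Bool)} {q : ℕ}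
    (h : ∀ j < q, IsPath E (endp v (b1rep t j)) t) : IsPath E v (b1rep t q) := by
  induction q generalizing v with
  | zero => trivial
  | succ q ih =>
    rw [b1rep, isPath_append]
    refine ⟨by simpa [b1rep] using h 0 (Nat.succ_pos _), ih fun j hj => ?_⟩
    have := h (j + 1) (Nat.succ_lt_succ hj)
    rwa [b1_endp_rep_succ] at this

theorem remove_once {v₀ : V}
    {tw : List (A × Bool)} {N : ℕ}
    {S : Set (FreeGroup A)} {ED : Set (A × V)} {FD : Subgroup (FreeGroup A)}
    {T : Set (FreeGroup A)} {E : Set (A × V)} {C : Set V}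
    (hG : Good v₀ tw N S ED FD T E C) (hFD : FD ≤ FK v₀ ED) (hT : T ⊆ FD) (hN : 0 < N)
    (hord : ∀ v ∈ C, ∀ j, 0 < j → j < N → (FreeGroup.mk tw ^ j)⁻¹ • v ≠ v)
    (e : A × V) (he : e ∈ E) (heD : e ∉ ED)
    (v : V) (hv : v ∈ C) (i : ℕ) (hi : i < tw.length)
    (hcov : edge (endp v (tw.take i)) tw[i] = e)
    (huniq : ∀ v' ∈ C, ∀ (j : ℕ) (hj : j < tw.length),
      edge (endp v' (tw.take j)) tw[j] = e → v' = v ∧ j = i) :
    ∃ (E' : Set (A × V)) (C' : Set V), E' ⊆ E \ {e} ∧ C' ⊆ C ∧ Good v₀ tw N S ED FD T E' C' := by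
  classical
  set τ : FreeGroup A := FreeGroup.mk tw with hτ
  have hper := hG.per v hv
  -- the orbit
  set O : Set V := {v' | ∃ j : ℕ, endp v (b1rep tw j) = v'} with hO
  have hvO : v ∈ O := ⟨0, by simp [b1rep]⟩
  have hCrep : ∀ j, endp v (b1rep tw j) ∈ C := by
    intro j
    have : ∀ j, ∀ u ∈ C, endp u (b1rep tw j) ∈ C := by
      intro j
      induction j with
      | zero => intro u hu; simpa [b1rep] using hu
      | succ j ih => intro u hu; rw [b1_endp_rep_succ]; exact ih _ (hG.cyc u hu)
    exact this j v hv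
  -- paths avoiding e
  have hav : ∀ u ∈ C, u ≠ v → IsPath (E \ {e}) u tw := by
    intro u hu huv
    refine b1_isPath_diff (hG.path u hu) fun j hj h => huv (huniq u hu j hj h).1
  set α := tw.take i with hα
  set x := tw[i] with hx
  set β₀ := tw.drop (i + 1) with hβ₀
  have htw : tw = α ++ x :: β₀ := by
    rw [hα, hx, hβ₀, List.cons_getElem_drop_succ, List.take_append_drop]
  have hpα : IsPath (E \ {e}) v α := by
    have h1 : IsPath E v α := by
      have := hG.path v hv
      rw [htw, isPath_append] at this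
      exact this.1
    refine b1_isPath_diff h1 fun j hj h => ?_
    have hjlen : j < i := by
      rw [hα, List.length_take] at hj
      omega
    have hj' : j < tw.length := by omega
    have h2 : α.take j = tw.take j := by
      rw [hα, List.take_take, min_eq_left hjlen.le]
    have h3 : α[j] = tw[j] := by
      simp [hα]
    rw [h2, h3] at h
    have := (huniq v hv j hj' h).2
    omega
  set p := endp v α with hp
  set p' := step p x with hp'
  have hpβ : IsPath (E \ {e}) p' β₀ := by
    have h1 : IsPath E p' β₀ := by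
      have := hG.path v hv
      rw [htw, isPath_append] at this
      exact this.2.2
    refine b1_isPath_diff h1 fun j hj h => ?_
    have hj1 : j < tw.length - (i + 1) := by
      rw [hβ₀, List.length_drop] at hj
      exact hj
    have hj' : i + 1 + j < tw.length := by omega
    have h3 : β₀[j] = tw[i + 1 + j] := by
      simp [hβ₀]
    have h2 : endp v (tw.take (i + 1 + j)) = endp p' (β₀.take j) := by
      have h4 : tw.take (i + 1 + j) = α ++ x :: (β₀.take j) := by
        have h5 : α.length = i := by rw [hα, List.length_take]; omega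
        conv_lhs => rw [htw]
        rw [List.take_append, h5]
        have h6 : i + 1 + j - i = j + 1 := by omega
        rw [h6, List.take_succ_cons, List.take_of_length_le (by omega)]
      rw [h4, endp_append, endp_cons]
    rw [← h2, h3] at h
    have := (huniq v hv _ hj' h).2
    omega
  obtain ⟨M, rfl⟩ : ∃ M, N = M + 1 := ⟨N - 1, by omega⟩
  have hendtw : endp p' β₀ = endp v tw := by
    conv_rhs => rw [htw]
    rw [endp_append, endp_cons]
  have hpM : IsPath (E \ {e}) (endp v tw) (b1rep tw M) := by
    refine b1_isPath_rep fun j hj => ?_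
    rw [← b1_endp_rep_succ]
    refine hav _ (hCrep _) ?_
    rw [← b1_endp_pow]
    exact hord v hv (j + 1) (Nat.succ_pos _) (Nat.succ_lt_succ hj)
  set β := β₀ ++ b1rep tw M with hβ
  have hpβ' : IsPath (E \ {e}) p' β := by
    rw [hβ, isPath_append, hendtw]
    exact ⟨hpβ, hpM⟩
  have hendβ : endp p' β = v := by
    rw [hβ, endp_append, hendtw, ← b1_endp_rep_succ, ← b1_endp_pow]
    exact hper
  have hrep : b1rep tw (M + 1) = α ++ x :: β := by
    have h1 : b1rep tw (M + 1) = tw ++ b1rep tw M := rfl
    have h2 : α ++ x :: β = (α ++ x :: β₀) ++ b1rep tw M := by rw [hβ]; simp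
    rw [h1, h2, ← htw]
  have hconn : Conn (E \ {e}) p' (FreeGroup.mk β * FreeGroup.mk α) p :=
    ⟨β ++ α, by rw [FreeGroup.mul_mk], (isPath_append _ _ _ _).2 ⟨hpβ', by rwa [hendβ]⟩, by
      rw [endp_append, hendβ]⟩
  set c : FreeGroup A := FreeGroup.mk β * FreeGroup.mk α with hc
  set κ : A × V → FreeGroup A := fun e' => if e' = e then (if x.2 then c⁻¹ else c) else
    FreeGroup.of e'.1 with hκdef
  have hκe : κ e = if x.2 then c⁻¹ else c := by simp [hκdef]
  have hκne : ∀ e' ∈ E \ {e}, κ e' = FreeGroup.of e'.1 := by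
    intro e' he'
    have h0 : e' ≠ e := he'.2
    simp only [hκdef]
    rw [if_neg h0]
  have hwt1 : wt κ v (b1rep tw (M + 1)) = 1 := by
    rw [hrep, wt_append, wt_cons, b1_wt_eq_mk hκne hpα, b1_wt_eq_mk hκne hpβ', hcov, hκe]
    have h1 : FreeGroup.mk α * (c⁻¹ * FreeGroup.mk β) = 1 := by rw [hc]; group
    cases x.2
    · simpa only [Bool.false_eq_true, if_false] using h1
    · simpa only [if_true] using h1
  have hwtF1 : wtF κ v (τ ^ (M + 1)) = 1 := by
    rw [hτ, ← b1_mk_rep, wtF_mk, hwt1]
  refine ⟨E \ {e}, C \ O, subset_rfl, Set.sdiff_subset, ?_⟩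
  refine retract hG hFD hT (fun d hd => ⟨hG.sub hd, fun h => heD (h ▸ hd)⟩) Set.sdiff_subset
    Set.sdiff_subset ?_ ?_ id rfl κ ?_ hκne ?_
  · intro u hu
    refine ⟨hG.cyc u hu.1, ?_⟩
    rintro ⟨j, hj⟩
    apply hu.2
    rcases j with _ | j
    · refine ⟨M, ?_⟩
      have h1 : endp v (b1rep tw (M + 1)) = v := by rw [← b1_endp_pow]; exact hper
      have h2 : endp (endp v (b1rep tw M)) tw = v := by
        have : endp (endp v (b1rep tw M)) tw = endp v (b1rep tw (M + 1)) := by
          rw [← endp_append, endp, endp, ← FreeGroup.mul_mk, b1_mk_rep, b1_mk_rep, ← pow_succ]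
        rw [this, h1]
      have h3 : endp v (b1rep tw 0) = v := by simp [b1rep]
      rw [h3] at hj
      have h4 : endp (endp v (b1rep tw M)) tw = endp u tw := by rw [h2, hj]
      exact smul_left_cancel _ h4
    · refine ⟨j, ?_⟩
      have h2 : endp (endp v (b1rep tw j)) tw = endp v (b1rep tw (j + 1)) := by
        rw [← endp_append, endp, endp, ← FreeGroup.mul_mk, b1_mk_rep, b1_mk_rep, ← pow_succ]
      rw [← h2] at hj
      exact smul_left_cancel _ hj
  · intro u hu
    refine hav u hu.1 ?_
    rintro rfl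
    exact hu.2 hvO
  · intro e' he' _
    simp only [id]
    by_cases hee : e' = e
    · subst hee
      rw [hκe]
      cases hxb : x.2
      · have h1 : e'.2 = p' := by rw [← hcov, edge_snd_false _ _ hxb]
        have h2 : tgt e' = p := by rw [← hcov, tgt_edge_false _ _ hxb]
        rw [h1, h2]
        simpa using hconn
      · have h1 : e'.2 = p := by rw [← hcov, edge_snd_true _ _ hxb]
        have h2 : tgt e' = p' := by rw [← hcov, tgt_edge_true _ _ hxb]
        rw [h1, h2]
        simpa using hconn.symm
    · have h1 : e' ∈ E \ {e} := ⟨he', hee⟩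
      rw [hκne e' h1]
      have h2 : edge e'.2 (e'.1, true) ∈ E \ {e} := by
        rw [edge_true]
        exact h1
      exact Conn.of_edge h2
  · intro u hu _
    by_cases huO : u ∈ O
    · left
      obtain ⟨j, rfl⟩ := huO
      have h1 := wtF_mul κ v (τ ^ j) (τ ^ (M + 1))
      have h2 := wtF_mul κ v (τ ^ (M + 1)) (τ ^ j)
      rw [← pow_add, add_comm, pow_add, h2, hwtF1, hper, one_mul, b1_endp_pow] at h1
      exact (mul_eq_left.1 h1.symm)
    · exact Or.inr ⟨⟨hu, huO⟩, rfl⟩

end IM
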